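import Pool.Agent.H13DY.Stm

/-!
# Job MUL of the project DY: the multiplicities of the periodic points
-/

set_option autoImplicit false

namespace Pool.Agent.Q190.DY

open Polynomial Function Finset
open Pool.Agent.H13DY

variable {K : Type*} [Field K]

/-- the `d`-th iterate as a polynomial -/
noncomputable def Pn (c : K) (d : ℕ) : K[X] := ((X ^ 2 + C c : K[X]).comp)^[d] X

theorem Pn_zero (c : K) : Pn c 0 = X := rfl

theorem Pn_succ (c : K) (d : ℕ) : Pn c (d + 1) = (Pn c d) ^ 2 + C c := by
  unfold Pn
  rw [iterate_succ_apply']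
  simp

theorem Pn_comp (c : K) (a b : ℕ) : (Pn c a).comp (Pn c b) = Pn c (a + b) := by
  induction a with
  | zero => rw [Pn_zero, X_comp, zero_add]
  | succ a ih =>
    rw [Pn_succ, add_comp, pow_comp, C_comp, ih, show a + 1 + b = a + b + 1 by ring, Pn_succ]

theorem Pn_eval (c : K) (d : ℕ) (x : K) : (Pn c d).eval x = (qm c)^[d] x := by
  induction d with
  | zero => simp [Pn_zero]
  | succ d ih =>
    rw [Pn_succ, iterate_succ_apply', eval_add, eval_pow, eval_C, ih]
    rfl

theorem Pn_deriv (c : K) (d : ℕ) (x : K) : (derivative (Pn c d)).eval x = mult c d x := by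
  induction d with
  | zero => simp [Pn_zero, mult]
  | succ d ih =>
    rw [Pn_succ]
    unfold mult at *
    rw [prod_range_succ, ← ih, ← Pn_eval]
    simp only [derivative_add, derivative_C, add_zero, derivative_pow, eval_mul, eval_pow]
    simp
    ring

theorem Pn_natDegree (c : K) (d : ℕ) : (Pn c d).natDegree = 2 ^ d := by
  induction d with
  | zero => simp [Pn_zero]
  | succ d ih =>
    rw [Pn_succ, natDegree_add_C, natDegree_pow, ih, pow_succ, mul_comm]

theorem Pn_sub_ne (c : K) {d : ℕ} (hd : 0 < d) : Pn c d - X ≠ 0 := by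
  intro h
  have h1 : Pn c d = X := sub_eq_zero.1 h
  have h2 := Pn_natDegree c d
  rw [h1, natDegree_X] at h2
  have h3 : 1 < 2 ^ d := Nat.one_lt_two_pow (by omega)
  omega

/-- the multiplier of a multiple of the period -/
theorem mult_mul (c : K) {m : ℕ} {x : K} (hx : (qm c)^[m] x = x) (k : ℕ) :
    mult c (m * k) x = mult c m x ^ k := by
  induction k with
  | zero => simp [mult]
  | succ k ih =>
    rw [pow_succ, ← ih, mul_add, mul_one]
    unfold mult
    rw [prod_range_add]
    congr 1
    refine prod_congr rfl fun i _ => ?_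
    have h1 : (qm c)^[m * k] x = x := by
      rw [iterate_mul]
      exact iterate_fixed hx k
    rw [add_comm, iterate_add_apply, h1]

theorem fix_iff (c : K) {m : ℕ} {x : K} (hm : minimalPeriod (qm c) x = m) (d : ℕ) :
    (qm c)^[d] x = x ↔ m ∣ d := by
  rw [← hm]
  exact isPeriodicPt_iff_minimalPeriod_dvd

theorem rm_of_eq {P Q : K[X]} {x : K} {A : ℕ} (h : P = (X - C x) ^ A * Q) (hQ : Q.eval x ≠ 0) :
    P.rootMultiplicity x = A := by
  have hQ0 : Q ≠ 0 := fun h => hQ (by rw [h, eval_zero])
  have h1 : (X - C x) ^ A * Q ≠ 0 := mul_ne_zero (pow_ne_zero _ (X_sub_C_ne_zero x)) hQ0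
  rw [h, rootMultiplicity_mul h1, rootMultiplicity_X_sub_C_pow, rootMultiplicity_eq_zero hQ, add_zero]

theorem mul : S_MUL := by
  intro K _ _ c x m hm0 hm
  classical
  have hfix : (qm c)^[m] x = x := (fix_iff c hm m).2 (dvd_refl m)
  set μ : K := mult c m x with hμ
  set r : ℕ := orderOf μ with hr
  refine ⟨(Pn c (m * r) - X).rootMultiplicity x, fun d hd => ?_⟩
  show (Pn c d - X).rootMultiplicity x = _
  by_cases hmd : m ∣ d
  · rw [if_pos hmd]
    obtain ⟨k, rfl⟩ := hmd
    have hk : 0 < k := Nat.pos_of_mul_pos_left hd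
    rw [Nat.mul_div_cancel_left k hm0]
    have hroot : (Pn c (m * k) - X).IsRoot x := by
      rw [IsRoot, eval_sub, Pn_eval, eval_X, sub_eq_zero]
      exact (fix_iff c hm _).2 (dvd_mul_right m k)
    have hder : (derivative (Pn c (m * k) - X)).eval x = μ ^ k - 1 := by
      rw [derivative_sub, eval_sub, Pn_deriv, derivative_X, eval_one, mult_mul c hfix]
    by_cases hk1 : μ ^ k = 1
    · rw [if_pos hk1]
      have hrk : r ∣ k := orderOf_dvd_iff_pow_eq_one.2 hk1
      obtain ⟨j, rfl⟩ := hrk
      have hr0 : 0 < r := Nat.pos_of_mul_pos_right hk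
      have hj0 : 0 < j := Nat.pos_of_mul_pos_left hk
      set h : K[X] := Pn c (m * r) with hh
      have hh0 : h - X ≠ 0 := Pn_sub_ne c (Nat.mul_pos hm0 hr0)
      set A : ℕ := (h - X).rootMultiplicity x with hA
      have hA2 : 1 < A := by
        rw [hA, one_lt_rootMultiplicity_iff_isRoot hh0]
        refine ⟨?_, ?_⟩
        · rw [IsRoot, eval_sub, hh, Pn_eval, eval_X, sub_eq_zero]
          exact (fix_iff c hm _).2 (dvd_mul_right m r)
        · rw [IsRoot, hh, derivative_sub, eval_sub, Pn_deriv, derivative_X, eval_one, mult_mul c hfix, ← hμ,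
            hr, pow_orderOf_eq_one, sub_self]
      obtain ⟨u, hu, hud⟩ := exists_eq_pow_rootMultiplicity_mul_and_not_dvd (h - X) hh0 x
      rw [← hA] at hu
      have hux : u.eval x ≠ 0 := fun h => hud (dvd_iff_isRoot.2 h)
      -- all the iterates
      have key : ∀ i : ℕ, ∃ v : K[X], Pn c (m * r * i) - X = (X - C x) ^ A * v ∧ v.eval x = i * u.eval x := by
        intro i
        induction i with
        | zero => exact ⟨0, by simp [Pn_zero], by simp⟩
        | succ i ih =>
          obtain ⟨v, hv1, hv2⟩ := ih
          set P : K[X] := Pn c (m * r * i) with hP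
          have e1 : P = X + (X - C x) ^ A * v := by rw [← hv1]; ring
          have e2 : P - C x = (X - C x) * (1 + (X - C x) ^ (A - 1) * v) := by
            have e3 : (X - C x : K[X]) ^ A = (X - C x) * (X - C x) ^ (A - 1) := by
              rw [← pow_succ', Nat.sub_add_cancel (by omega)]
            rw [e1, e3]
            ring
          have e4 : Pn c (m * r * (i + 1)) = h.comp P := by
            rw [hh, hP, Pn_comp]
            congr 1
            ring
          have e5 : h.comp P - P = (P - C x) ^ A * u.comp P := by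
            have := congrArg (fun q : K[X] => q.comp P) hu
            simpa using this
          refine ⟨(1 + (X - C x) ^ (A - 1) * v) ^ A * u.comp P + v, ?_, ?_⟩
          · rw [e4]
            have e6 : h.comp P - X = (h.comp P - P) + (P - X) := by ring
            rw [e6, e5, hv1, e2, mul_pow]
            ring
          · have e7 : P.eval x = x := by
              rw [e1]
              simp [show A ≠ 0 by omega]
            rw [eval_add, eval_mul, eval_pow, eval_comp, e7, hv2]
            simp [show A - 1 ≠ 0 by omega]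
            ring
      obtain ⟨v, hv1, hv2⟩ := key j
      rw [← mul_assoc]
      refine rm_of_eq hv1 ?_
      rw [hv2]
      exact mul_ne_zero (by exact_mod_cast hj0.ne') hux
    · rw [if_neg hk1]
      have h1 : 0 < (Pn c (m * k) - X).rootMultiplicity x :=
        (rootMultiplicity_pos (Pn_sub_ne c hd)).2 hroot
      have h2 : ¬ 1 < (Pn c (m * k) - X).rootMultiplicity x := by
        rw [one_lt_rootMultiplicity_iff_isRoot (Pn_sub_ne c hd)]
        rintro ⟨_, h3⟩
        rw [IsRoot, hder] at h3
        exact hk1 (sub_eq_zero.1 h3)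
      omega
  · rw [if_neg hmd]
    apply rootMultiplicity_eq_zero
    intro h
    rw [IsRoot, eval_sub, Pn_eval, eval_X, sub_eq_zero] at h
    exact hmd ((fix_iff c hm d).1 h)

end Pool.Agent.Q190.DY
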