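import Pool.Agent.H13DY.Stm
import Pool.Agent.H921R2.TatePole.Dirichlet

/-!
# Job ND of the project DY: natural density implies Dirichlet density
-/

set_option autoImplicit false

namespace Pool.Agent.Q190.DY

open Filter Topology Finset
open Pool.Agent.H13DY
open Pool.Agent.H921R2.TatePole (W Lam Bdd W_sub_Lam_bdd)

/-- partial sums and decreasing weights -/
theorem abel_le (w c : ℕ → ℝ) (hw : ∀ n, w (n + 1) ≤ w n) (hw0 : ∀ n, 0 ≤ w n)
    (hc : ∀ M, 0 ≤ ∑ n ∈ range M, c n) : ∀ M, 0 ≤ ∑ n ∈ range M, w n * c n := by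
  have key : ∀ M, w M * ∑ n ∈ range M, c n ≤ ∑ n ∈ range M, w n * c n := by
    intro M
    induction M with
    | zero => simp
    | succ M ih =>
      have h1 : w (M + 1) * ∑ n ∈ range (M + 1), c n ≤ w M * ∑ n ∈ range (M + 1), c n :=
        mul_le_mul_of_nonneg_right (hw M) (hc (M + 1))
      rw [sum_range_succ, sum_range_succ] at *
      nlinarith
  intro M
  exact (mul_nonneg (hw0 M) (hc M)).trans (key M)

open scoped Classical in
/-- the indicator of `S` at `n + 1` -/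
noncomputable def aa (S : Set ℕ) (n : ℕ) : ℝ := if n + 1 ∈ S then 1 else 0

/-- the weights -/
noncomputable def wt (s : ℝ) (n : ℕ) : ℝ := ((n + 1 : ℕ) : ℝ) ^ (-s)

theorem wt_anti {s : ℝ} (hs : 0 < s) (n : ℕ) : wt s (n + 1) ≤ wt s n := by
  unfold wt
  apply Real.rpow_le_rpow_of_nonpos (by positivity) _ (by linarith)
  push_cast
  linarith

theorem wt_nonneg (s : ℝ) (n : ℕ) : 0 ≤ wt s n := by unfold wt; positivity

theorem aa_nonneg (S : Set ℕ) (n : ℕ) : 0 ≤ aa S n := by unfold aa; split_ifs <;> norm_num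

theorem aa_le_one (S : Set ℕ) (n : ℕ) : aa S n ≤ 1 := by unfold aa; split_ifs <;> norm_num

theorem sum_aa (S : Set ℕ) (h0 : 0 ∉ S) (M : ℕ) : ∑ n ∈ range M, aa S n = ({p : ℕ | p ≤ M ∧ p ∈ S}.ncard : ℝ) := by
  classical
  have h1 : {p : ℕ | p ≤ M ∧ p ∈ S} = (((range M).filter (fun n => n + 1 ∈ S)).image (fun n => n + 1) : Finset ℕ) := by
    ext p
    simp only [Set.mem_ofPred_eq, coe_image, coe_filter, mem_range, Set.mem_image]
    constructor
    · rintro ⟨h1, h2⟩
      have hp : p ≠ 0 := fun h => h0 (h ▸ h2)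
      exact ⟨p - 1, ⟨by omega, by rwa [Nat.sub_add_cancel (by omega)]⟩, by omega⟩
    · rintro ⟨q, ⟨h1, h2⟩, rfl⟩
      exact ⟨by omega, h2⟩
  rw [h1, Set.ncard_coe_finset, card_image_of_injective _ (fun a b h => by simpa using h)]
  unfold aa
  rw [← sum_filter, sum_const, nsmul_eq_mul, mul_one]

theorem wt_summable {s : ℝ} (hs : 1 < s) : Summable (wt s) := by
  unfold wt
  have h1 : Summable (fun n : ℕ => (n : ℝ) ^ (-s)) := Real.summable_nat_rpow.2 (by linarith)
  exact (summable_nat_add_iff 1).2 h1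

theorem sum_eq (S : Set ℕ) (h0 : 0 ∉ S) {s : ℝ} (hs : 1 < s) :
    ∑' p : ℕ, S.indicator (fun p : ℕ => (p : ℝ) ^ (-s)) p = ∑' n : ℕ, wt s n * aa S n := by
  have h1 : Summable (fun n : ℕ => (n : ℝ) ^ (-s)) := Real.summable_nat_rpow.2 (by linarith)
  have h2 : Summable (fun p : ℕ => S.indicator (fun p : ℕ => (p : ℝ) ^ (-s)) p) := h1.indicator S
  rw [h2.tsum_eq_zero_add]
  have h3 : S.indicator (fun p : ℕ => (p : ℝ) ^ (-s)) 0 = 0 := Set.indicator_of_notMem h0 _
  rw [h3, zero_add]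
  refine tsum_congr fun n => ?_
  unfold wt aa
  by_cases h : n + 1 ∈ S
  · rw [Set.indicator_of_mem h, if_pos h, mul_one]
  · rw [Set.indicator_of_notMem h, if_neg h, mul_zero]

theorem W_eq {s : ℝ} (hs : 1 < s) : W s = ∑' n : ℕ, wt s n * aa {p | p.Prime} n := by
  rw [← sum_eq _ (by simp [Nat.not_prime_zero]) hs]
  unfold W
  exact tsum_subtype {p : ℕ | p.Prime} (fun p : ℕ => (p : ℝ) ^ (-s))

theorem summ {s : ℝ} (hs : 1 < s) (S : Set ℕ) : Summable (fun n => wt s n * aa S n) := by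
  refine Summable.of_nonneg_of_le (fun n => mul_nonneg (wt_nonneg s n) (aa_nonneg S n)) (fun n => ?_)
    (wt_summable hs)
  exact mul_le_of_le_one_right (wt_nonneg s n) (aa_le_one S n)

/-- the main inequality -/
theorem main_le {S : Set ℕ} {d ε C : ℝ} (hC : 0 ≤ C)
    (h : ∀ M, |∑ n ∈ range M, aa S n - d * ∑ n ∈ range M, aa {p | p.Prime} n| ≤
      ε * ∑ n ∈ range M, aa {p | p.Prime} n + C) {s : ℝ} (hs : 1 < s) :
    |∑' n, wt s n * aa S n - d * W s| ≤ ε * W s + C := by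
  have hw0 : wt s 0 = 1 := by unfold wt; simp
  have hd : ∀ M, ∑ n ∈ range M, (if n = 0 then C else 0) = if M = 0 then 0 else C := by
    intro M
    rcases Nat.eq_zero_or_pos M with rfl | hM
    · simp
    · rw [sum_ite_eq' (range M) 0, if_pos (mem_range.2 hM), if_neg (by omega)]
  have hS0 : HasSum (fun n : ℕ => wt s n * (if n = 0 then C else 0)) C := by
    have := hasSum_single (f := fun n : ℕ => wt s n * (if n = 0 then C else 0)) 0 (fun n hn => by
      simp [hn])
    simpa [hw0] using this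
  have hSa := (summ hs S).hasSum
  have hSb := (summ hs {p | p.Prime}).hasSum
  rw [← W_eq hs] at hSb
  have gen : ∀ τ : ℝ, (τ = 1 ∨ τ = -1) →
      0 ≤ ε * W s + C - τ * (∑' n, wt s n * aa S n - d * W s) := by
    intro τ hτ
    have h1 : HasSum (fun n : ℕ => wt s n * (ε * aa {p | p.Prime} n + (if n = 0 then C else 0) -
        τ * (aa S n - d * aa {p | p.Prime} n)))
        (ε * W s + C - τ * (∑' n, wt s n * aa S n - d * W s)) := by
      have := ((hSb.mul_left ε).add hS0).sub ((hSa.sub (hSb.mul_left d)).mul_left τ)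
      refine this.congr_fun ?_
      intro n
      ring
    have h2 := h1.tendsto_sum_nat
    refine ge_of_tendsto' h2 fun M => ?_
    refine abel_le (wt s) _ (wt_anti (by linarith)) (wt_nonneg s) (fun M => ?_) M
    rw [sum_sub_distrib, sum_add_distrib, ← mul_sum, ← mul_sum, sum_sub_distrib, ← mul_sum, hd]
    have h3 := abs_le.1 (h M)
    rcases Nat.eq_zero_or_pos M with rfl | hM
    · simp
    · rw [if_neg (by omega)]
      rcases hτ with rfl | rfl <;> linarith [h3.1, h3.2]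
  rw [abs_le]
  have a1 := gen 1 (Or.inl rfl)
  have a2 := gen (-1) (Or.inr rfl)
  constructor <;> linarith

theorem Lam_atTop : Tendsto Lam (𝓝[>] 1) atTop := by
  unfold Lam
  refine Real.tendsto_log_atTop.comp ?_
  have h1 : Tendsto (fun x : ℝ => x - 1) (𝓝[>] 1) (𝓝[>] 0) := by
    rw [tendsto_nhdsWithin_iff]
    constructor
    · have : Tendsto (fun x : ℝ => x - 1) (𝓝 1) (𝓝 (1 - 1)) := tendsto_id.sub_const 1
      simpa using this.mono_left nhdsWithin_le_nhds
    · filter_upwards [self_mem_nhdsWithin] with x hx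
      exact sub_pos.mpr (Set.mem_Ioi.mp hx)
  have h2 := tendsto_inv_nhdsGT_zero.comp h1
  refine h2.congr fun x => ?_
  simp [Function.comp]

/-- the partial sums -/
theorem part_le {S : Set ℕ} {d : ℝ} (hS : ∀ p ∈ S, Nat.Prime p) (h : HasNatDens S d) {ε : ℝ} (hε : 0 < ε) :
    ∃ C : ℝ, 0 ≤ C ∧ ∀ M, |∑ n ∈ range M, aa S n - d * ∑ n ∈ range M, aa {p | p.Prime} n| ≤
      ε * ∑ n ∈ range M, aa {p | p.Prime} n + C := by
  have hA : ∀ M, ∑ n ∈ range M, aa S n = ({p : ℕ | p ≤ M ∧ p.Prime ∧ p ∈ S}.ncard : ℝ) := by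
    intro M
    rw [sum_aa S (fun h => Nat.not_prime_zero (hS 0 h))]
    congr 2
    ext p
    simp only [Set.mem_ofPred_eq]
    exact ⟨fun h => ⟨h.1, hS p h.2, h.2⟩, fun h => ⟨h.1, h.2.2⟩⟩
  have hB : ∀ M, ∑ n ∈ range M, aa {p | p.Prime} n = (Nat.primeCounting M : ℝ) := by
    intro M
    rw [sum_aa _ (by simp [Nat.not_prime_zero])]
    congr 1
    rw [Nat.primeCounting, Nat.primeCounting', Nat.count_eq_card_filter_range, ← Set.ncard_coe_finset]
    congr 1
    ext p
    simp [Nat.lt_succ_iff]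
  unfold HasNatDens at h
  have h1 := (Metric.tendsto_atTop.1 h) ε hε
  obtain ⟨N, hN⟩ := h1
  set E : ℕ → ℝ := fun M => |∑ n ∈ range M, aa S n - d * ∑ n ∈ range M, aa {p | p.Prime} n| with hE
  refine ⟨∑ M ∈ range (N + 2), E M, sum_nonneg fun _ _ => abs_nonneg _, fun M => ?_⟩
  have hB0 : 0 ≤ ∑ n ∈ range M, aa {p | p.Prime} n := sum_nonneg fun _ _ => aa_nonneg _ _
  have hC0 : 0 ≤ ∑ M ∈ range (N + 2), E M := sum_nonneg fun _ _ => abs_nonneg _
  rcases Nat.lt_or_ge M (N + 2) with hM | hM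
  · have h2 : E M ≤ ∑ M ∈ range (N + 2), E M :=
      single_le_sum (f := E) (fun _ _ => abs_nonneg _) (mem_range.2 hM)
    have h3 : 0 ≤ ε * ∑ n ∈ range M, aa {p | p.Prime} n := mul_nonneg hε.le hB0
    have h4 : |∑ n ∈ range M, aa S n - d * ∑ n ∈ range M, aa {p | p.Prime} n| = E M := rfl
    linarith
  · have h2 := hN M (by omega)
    rw [Real.dist_eq] at h2
    have hpos : 0 < (Nat.primeCounting M : ℝ) := by
      have h3 : 1 ≤ Nat.primeCounting M := by
        have h4 : Nat.primeCounting 2 ≤ Nat.primeCounting M := Nat.monotone_primeCounting (by omega)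
        have h5 : Nat.primeCounting 2 = 1 := by decide
        omega
      exact_mod_cast h3
    have h3 : |∑ n ∈ range M, aa S n - d * ∑ n ∈ range M, aa {p | p.Prime} n| ≤
        ε * ∑ n ∈ range M, aa {p | p.Prime} n := by
      rw [hA, hB]
      have h4 : (({p : ℕ | p ≤ M ∧ p.Prime ∧ p ∈ S}.ncard : ℝ)) - d * (Nat.primeCounting M : ℝ) =
          ((({p : ℕ | p ≤ M ∧ p.Prime ∧ p ∈ S}.ncard : ℝ)) / (Nat.primeCounting M : ℝ) - d) *
            (Nat.primeCounting M : ℝ) := by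
        field_simp
      rw [h4, abs_mul, abs_of_pos hpos]
      exact mul_le_mul_of_nonneg_right h2.le hpos.le
    linarith

/-- **job ND** -/
theorem nd : S_ND := by
  intro S d hS h
  unfold HasDirDens
  obtain ⟨K, hK⟩ := W_sub_Lam_bdd
  rw [Metric.tendsto_nhds]
  intro ε hε
  obtain ⟨C, hC, hC2⟩ := part_le hS h (half_pos hε)
  set B : ℝ := ε / 2 * |K| + C + |d| * |K| with hB
  have hBB : ∀ᶠ s : ℝ in 𝓝[>] 1, 2 * B / ε + 1 ≤ Lam s := Lam_atTop.eventually_ge_atTop _
  have h1 : ∀ᶠ s : ℝ in 𝓝[>] 1, 1 < s := self_mem_nhdsWithin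
  filter_upwards [hK, hBB, h1] with s hs1 hs2 hs3
  have hB0 : 0 ≤ B := by positivity
  have hLam : -Real.log (s - 1) = Lam s := by
    unfold Lam
    rw [one_div, Real.log_inv]
  have hLp : 0 < Lam s := by
    have : 0 ≤ 2 * B / ε := by positivity
    linarith
  rw [hLam, sum_eq S (fun h => Nat.not_prime_zero (hS 0 h)) hs3, Real.dist_eq]
  have h2 := main_le hC hC2 hs3
  have hs4 : |W s - Lam s| ≤ |K| := hs1.trans (le_abs_self K)
  have h3 : (∑' n, wt s n * aa S n) / Lam s - d = (∑' n, wt s n * aa S n - d * Lam s) / Lam s := by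
    field_simp
  rw [h3, abs_div, abs_of_pos hLp, div_lt_iff₀ hLp]
  have h4 : |∑' n, wt s n * aa S n - d * Lam s| ≤ |∑' n, wt s n * aa S n - d * W s| + |d| * |K| := by
    have e1 : ∑' n, wt s n * aa S n - d * Lam s = (∑' n, wt s n * aa S n - d * W s) + d * (W s - Lam s) := by
      ring
    rw [e1]
    refine (abs_add_le _ _).trans ?_
    rw [abs_mul d]
    have := mul_le_mul_of_nonneg_left hs4 (abs_nonneg d)
    linarith
  have h5 : W s ≤ Lam s + |K| := by linarith [(abs_le.1 hs4).2]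
  have h6 : ε / 2 * W s ≤ ε / 2 * (Lam s + |K|) := mul_le_mul_of_nonneg_left h5 (by positivity)
  have h7 : 2 * B / ε < Lam s := by linarith
  rw [div_lt_iff₀ hε] at h7
  linarith

end Pool.Agent.Q190.DY
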