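import Pool.Agent.Q190.DY.MUL

/-!
# Job PAR of the project DY: the roots of the dynatomic polynomials
-/

set_option autoImplicit false

namespace Pool.Agent.Q190.DY

open Polynomial Function Finset
open Pool.Agent.H13DY

/-- Möbius inversion of the indicator of the multiples of `R` -/
theorem moeb {n R : ℕ} (hn : 0 < n) :
    ∑ d ∈ n.divisors, ArithmeticFunction.moebius (n / d) * (if R ∣ d then (1 : ℤ) else 0) =
      if n = R then 1 else 0 := by
  have h1 := (ArithmeticFunction.sum_eq_iff_sum_mul_moebius_eq (R := ℤ) (f := fun i => if i = R then 1 else 0)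
    (g := fun d => if R ∣ d then 1 else 0)).1 (fun k hk => by
      rw [sum_ite_eq' k.divisors R]
      congr 1
      simp [hk.ne']) n hn
  rw [← h1]
  rw [← Nat.sum_divisorsAntidiagonal' (fun a b => (ArithmeticFunction.moebius a : ℤ) * (if R ∣ b then (1 : ℤ) else 0))]
  simp

variable {K : Type*} [Field K]

/-- the iterates of `f` -/
noncomputable def Fn (f : K[X]) (d : ℕ) : K[X] := (f.comp)^[d] X

theorem Fn_succ (f : K[X]) (d : ℕ) : Fn f (d + 1) = f.comp (Fn f d) := by
  unfold Fn
  rw [iterate_succ_apply']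

theorem Fn_natDegree {f : K[X]} (hf : f.natDegree = 2) (d : ℕ) : (Fn f d).natDegree = 2 ^ d := by
  induction d with
  | zero => simp [Fn]
  | succ d ih => rw [Fn_succ, natDegree_comp, ih, hf, pow_succ, mul_comm]

theorem Fn_sub_ne {f : K[X]} (hf : f.natDegree = 2) {d : ℕ} (hd : 0 < d) : Fn f d - X ≠ 0 := by
  intro h
  have h1 : Fn f d = X := sub_eq_zero.1 h
  have h2 := Fn_natDegree hf d
  rw [h1, natDegree_X] at h2
  have h3 : 1 < 2 ^ d := Nat.one_lt_two_pow (by omega)
  omega

theorem Fn_map {L : Type*} [Field L] (i : K →+* L) (f : K[X]) (d : ℕ) : (Fn f d).map i = Fn (f.map i) d := by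
  induction d with
  | zero => simp [Fn]
  | succ d ih => rw [Fn_succ, Fn_succ, Polynomial.map_comp, ih]

/-- the conjugation -/
theorem conj [CharZero K] {f : K[X]} (hf : f.natDegree = 2) (d : ℕ) :
    (Pn (f.coeff 2 * f.coeff 0 + f.coeff 1 / 2 - f.coeff 1 ^ 2 / 4) d).comp (C (f.coeff 2) * X + C (f.coeff 1 / 2)) =
      C (f.coeff 2) * Fn f d + C (f.coeff 1 / 2) := by
  have hf2 : f = C (f.coeff 2) * X ^ 2 + C (f.coeff 1) * X + C (f.coeff 0) := by
    conv_lhs => rw [f.as_sum_range_C_mul_X_pow, hf]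
    simp [sum_range_succ]
    ring
  induction d with
  | zero => simp [Pn_zero, Fn]
  | succ d ih =>
    rw [Pn_succ, add_comp, pow_comp, C_comp, ih, Fn_succ]
    have e1 : ∀ P : K[X], f.comp P = C (f.coeff 2) * P ^ 2 + C (f.coeff 1) * P + C (f.coeff 0) := by
      intro P
      conv_lhs => rw [hf2]
      simp
    rw [e1]
    have h2 : (C (2 : K) : K[X]) * C ((2 : K)⁻¹) = 1 := by rw [← C_mul]; norm_num
    have e2 : C (f.coeff 1) = (C (2 : K) : K[X]) * C (f.coeff 1 / 2) := by rw [← C_mul]; congr 1; ring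
    have e3 : (C (f.coeff 2 * f.coeff 0 + f.coeff 1 / 2 - f.coeff 1 ^ 2 / 4) : K[X]) =
        C (f.coeff 2) * C (f.coeff 0) + C (f.coeff 1 / 2) - C (f.coeff 1 / 2) ^ 2 := by
      rw [← C_mul, ← C_pow, ← C_add, ← C_sub]
      congr 1
      ring
    have e4 : (C (2 : K) : K[X]) = 2 := rfl
    rw [e3, e2, e4]
    ring

theorem rm_prod {ι : Type*} (s : Finset ι) (F : ι → K[X]) (a : ι → ℕ) (hF : ∀ i ∈ s, F i ≠ 0) (α : K) :
    (∏ i ∈ s, F i ^ a i).rootMultiplicity α = ∑ i ∈ s, a i * (F i).rootMultiplicity α := by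
  classical
  have hpow : ∀ (P : K[X]), P ≠ 0 → ∀ k : ℕ, (P ^ k).rootMultiplicity α = k * P.rootMultiplicity α := by
    intro P hP k
    induction k with
    | zero => simp
    | succ k ih =>
      rw [pow_succ, rootMultiplicity_mul (mul_ne_zero (pow_ne_zero _ hP) hP), ih]
      ring
  induction s using Finset.induction_on with
  | empty => simp
  | insert i s hi ih =>
    have h1 : ∀ j ∈ s, F j ≠ 0 := fun j hj => hF j (mem_insert_of_mem hj)
    have h2 : F i ≠ 0 := hF i (mem_insert_self i s)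
    rw [prod_insert hi, sum_insert hi, rootMultiplicity_mul, ih h1, hpow _ h2]
    exact mul_ne_zero (pow_ne_zero _ h2) (prod_ne_zero_iff.2 fun j hj => pow_ne_zero _ (h1 j hj))

theorem pr (h : S_MUL) : S_PAR := by
  intro f n Φ hf hn hΦ
  unfold IsDyn at hΦ
  have hne : ∀ d ∈ n.divisors, Fn f d - X ≠ 0 := fun d hd =>
    Fn_sub_ne hf (Nat.pos_of_mem_divisors hd)
  have hinj : Function.Injective (algebraMap ℚ[X] (RatFunc ℚ)) := RatFunc.algebraMap_injective ℚ
  have hne' : ∀ d ∈ n.divisors, algebraMap ℚ[X] (RatFunc ℚ) (Fn f d - X) ≠ 0 := fun d hd => by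
    rw [Ne, map_eq_zero_iff _ hinj]
    exact hne d hd
  have hΦ0 : Φ ≠ 0 := by
    intro h0
    rw [h0, map_zero] at hΦ
    exact (prod_ne_zero_iff.2 fun d hd => zpow_ne_zero _ (hne' d hd)) hΦ.symm
  refine ⟨hΦ0, fun K _ _ α hα => ?_⟩
  classical
  set μ : ℕ → ℤ := fun d => ArithmeticFunction.moebius (n / d) with hμ
  -- the identity without denominators
  have hpoly : Φ * ∏ d ∈ n.divisors, (Fn f d - X) ^ (-μ d).toNat = ∏ d ∈ n.divisors, (Fn f d - X) ^ (μ d).toNat := by
    apply hinj
    rw [map_mul, map_prod, map_prod, hΦ, ← prod_mul_distrib]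
    refine prod_congr rfl fun d hd => ?_
    have h0 := hne' d hd
    rw [map_pow, map_pow]
    show (algebraMap ℚ[X] (RatFunc ℚ) (Fn f d - X)) ^ (μ d) * _ = _
    rw [← zpow_natCast, ← zpow_natCast, ← zpow_add₀ h0]
    congr 1
    have := Int.toNat_sub_toNat_neg (μ d)
    linarith
  set i : ℚ →+* K := algebraMap ℚ K with hi
  have hmap : (Φ.map i) * ∏ d ∈ n.divisors, (Fn (f.map i) d - X) ^ (-μ d).toNat =
      ∏ d ∈ n.divisors, (Fn (f.map i) d - X) ^ (μ d).toNat := by
    have := congrArg (Polynomial.map i) hpoly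
    simpa only [Polynomial.map_mul, Polynomial.map_prod, Polynomial.map_pow, Polynomial.map_sub, map_X,
      Fn_map] using this
  have hf' : (f.map i).natDegree = 2 := by
    rw [natDegree_map]
    exact hf
  have hneK : ∀ d ∈ n.divisors, Fn (f.map i) d - X ≠ 0 := fun d hd =>
    Fn_sub_ne hf' (Nat.pos_of_mem_divisors hd)
  have hΦK : Φ.map i ≠ 0 := (Polynomial.map_ne_zero_iff i.injective).2 hΦ0
  have hrm := congrArg (fun P : K[X] => (P.rootMultiplicity α : ℤ)) hmap
  rw [rootMultiplicity_mul (mul_ne_zero hΦK (prod_ne_zero_iff.2 fun d hd => pow_ne_zero _ (hneK d hd))),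
    rm_prod _ _ _ hneK, rm_prod _ _ _ hneK] at hrm
  push_cast at hrm
  have hsum : ((Φ.map i).rootMultiplicity α : ℤ) =
      ∑ d ∈ n.divisors, μ d * ((Fn (f.map i) d - X).rootMultiplicity α : ℤ) := by
    have h1 : ∑ d ∈ n.divisors, μ d * ((Fn (f.map i) d - X).rootMultiplicity α : ℤ) =
        ∑ d ∈ n.divisors, (((μ d).toNat : ℤ) * ((Fn (f.map i) d - X).rootMultiplicity α : ℤ)) -
        ∑ d ∈ n.divisors, (((-μ d).toNat : ℤ) * ((Fn (f.map i) d - X).rootMultiplicity α : ℤ)) := by
      rw [← sum_sub_distrib]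
      refine sum_congr rfl fun d _ => ?_
      rw [← sub_mul, Int.toNat_sub_toNat_neg]
    rw [h1]
    linarith
  have hpos : 0 < (Φ.map i).rootMultiplicity α := by
    rw [rootMultiplicity_pos hΦK, IsRoot, eval_map, ← aeval_def]
    exact hα
  -- the conjugation
  set a : K := (f.coeff 2 : K) with ha
  set b : K := (f.coeff 1 : K) with hb
  set c : K := ((par f : ℚ) : K) with hc
  have hca : (f.map i).coeff 2 = a := by rw [coeff_map, ha, hi, eq_ratCast]
  have hcb : (f.map i).coeff 1 = b := by rw [coeff_map, hb, hi, eq_ratCast]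
  have hcc : (f.map i).coeff 2 * (f.map i).coeff 0 + (f.map i).coeff 1 / 2 - (f.map i).coeff 1 ^ 2 / 4 = c := by
    rw [hc, par, coeff_map, coeff_map, coeff_map, hi, eq_ratCast, eq_ratCast, eq_ratCast]
    push_cast
    ring
  have ha0 : a ≠ 0 := by
    rw [← hca]
    have := leadingCoeff_ne_zero.2 (show f.map i ≠ 0 from fun h => by rw [h] at hf'; simp at hf')
    rwa [leadingCoeff, hf'] at this
  set x : K := a * α + b / 2 with hx
  have hord : ∀ d, 0 < d → (Fn (f.map i) d - X).rootMultiplicity α = (Pn c d - X).rootMultiplicity x := by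
    intro d hd
    have h1 := conj hf' d
    rw [hcc, hca, hcb] at h1
    have h2 : (Pn c d - X).comp (C a * X + C (b / 2)) = C a * (Fn (f.map i) d - X) := by
      rw [sub_comp, h1, X_comp]
      ring
    have h3 := rootMultiplicity_comp_C_mul_X_add_C (Pn c d - X) a (b / 2) α (isUnit_iff_ne_zero.2 ha0)
    rw [h2, rootMultiplicity_mul (mul_ne_zero (C_ne_zero.2 ha0) (Fn_sub_ne hf' hd)), rootMultiplicity_C,
      zero_add] at h3
    exact h3
  have hsum2 : ((Φ.map i).rootMultiplicity α : ℤ) =
      ∑ d ∈ n.divisors, μ d * ((Pn c d - X).rootMultiplicity x : ℤ) := by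
    rw [hsum]
    refine sum_congr rfl fun d hd => ?_
    rw [hord d (Nat.pos_of_mem_divisors hd)]
  show FP c n x
  rcases Nat.eq_zero_or_pos (minimalPeriod (qm c) x) with hm | hm
  · exfalso
    have h0 : ∑ d ∈ n.divisors, μ d * ((Pn c d - X).rootMultiplicity x : ℤ) = 0 := by
      refine sum_eq_zero fun d hd => ?_
      have h1 : (Pn c d - X).rootMultiplicity x = 0 := by
        apply rootMultiplicity_eq_zero
        intro h
        rw [IsRoot, eval_sub, Pn_eval, eval_X, sub_eq_zero, fix_iff c hm, Nat.zero_dvd] at h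
        exact (Nat.pos_of_mem_divisors hd).ne' h
      rw [h1]
      simp
    rw [h0] at hsum2
    have : (Φ.map i).rootMultiplicity α = 0 := by exact_mod_cast hsum2
    omega
  · set m : ℕ := minimalPeriod (qm c) x with hmdef
    obtain ⟨A, hA⟩ := h K c x m hm rfl
    set r : ℕ := orderOf (mult c m x) with hr
    have hval : ∀ d ∈ n.divisors, ((Pn c d - X).rootMultiplicity x : ℤ) =
        (if m ∣ d then (1 : ℤ) else 0) + ((A : ℤ) - 1) * (if m * r ∣ d then (1 : ℤ) else 0) := by
      intro d hd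
      have h1 : (Pn c d - X).rootMultiplicity x =
          (if m ∣ d then (if mult c m x ^ (d / m) = 1 then A else 1) else 0) := by
        have := hA d (Nat.pos_of_mem_divisors hd)
        convert this using 1
        rfl
      rw [h1]
      by_cases hmd : m ∣ d
      · obtain ⟨k, rfl⟩ := hmd
        rw [if_pos (dvd_mul_right m k), if_pos (dvd_mul_right m k), Nat.mul_div_cancel_left k hm]
        have h2 : mult c m x ^ k = 1 ↔ m * r ∣ m * k := by
          rw [Nat.mul_dvd_mul_iff_left hm, orderOf_dvd_iff_pow_eq_one]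
        by_cases h3 : mult c m x ^ k = 1
        · rw [if_pos h3, if_pos (h2.1 h3)]
          ring
        · rw [if_neg h3, if_neg (fun h => h3 (h2.2 h))]
          simp
      · rw [if_neg hmd, if_neg hmd, if_neg (fun h => hmd ((dvd_mul_right m r).trans h))]
        simp
    have hfin : ((Φ.map i).rootMultiplicity α : ℤ) =
        (if n = m then 1 else 0) + ((A : ℤ) - 1) * (if n = m * r then 1 else 0) := by
      rw [hsum2, ← moeb hn, ← moeb hn, mul_sum, ← sum_add_distrib]
      refine sum_congr rfl fun d hd => ?_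
      rw [hval d hd]
      ring
    by_cases h1 : n = m
    · exact ⟨m, hm, rfl, Or.inl h1⟩
    · by_cases h2 : n = m * r
      · refine ⟨m, hm, rfl, Or.inr ⟨r, ?_, h2, IsPrimitiveRoot.orderOf _⟩⟩
        rcases Nat.lt_or_ge 1 r with h3 | h3
        · exact h3
        · exfalso
          interval_cases r
          · omega
          · omega
      · exfalso
        rw [if_neg h1, if_neg h2] at hfin
        have : ((Φ.map i).rootMultiplicity α : ℤ) = 0 := by rw [hfin]; ring
        have : (Φ.map i).rootMultiplicity α = 0 := by exact_mod_cast this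
        omega

end Pool.Agent.Q190.DY
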